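import Pool.Agent.H41.GridAsymptotic

/-!
# Lattice points in a square grid with all mutual distances distinct

New upper bound `k(n) ≤ n ^ (1 - c / log log n)` for every `c < (log 2) / 2` and all large `n`.
-/

namespace Pool.Agent.Results.MP_67d718_co.UpperLogLog

open Filter

/-- The lattice point `p`, seen in the Euclidean plane. -/
noncomputable def pt (p : ℤ × ℤ) : EuclideanSpace ℝ (Fin 2) := !₂[(p.1 : ℝ), (p.2 : ℝ)]

/-- The `n × n` grid `G_n` of lattice points `(x, y)` with `1 ≤ x ≤ n` and `1 ≤ y ≤ n`. -/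
noncomputable def grid (n : ℕ) : Finset (ℤ × ℤ) := Finset.Icc (1 : ℤ) n ×ˢ Finset.Icc (1 : ℤ) n

/-- `S` has distinct distances: two unordered pairs of distinct points of `S` with the same
Euclidean distance are the same pair. -/
def HasDistinctDistances (S : Finset (ℤ × ℤ)) : Prop :=
  ∀ a ∈ S, ∀ b ∈ S, ∀ c ∈ S, ∀ d ∈ S, a ≠ b → c ≠ d →
    dist (pt a) (pt b) = dist (pt c) (pt d) → s(a, b) = s(c, d)

/-- `k(n)`, the largest number of points of a subset of `G_n` with distinct distances. -/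
noncomputable def maxDistinct (n : ℕ) : ℕ :=
  sSup {k : ℕ | ∃ S : Finset (ℤ × ℤ), S ⊆ grid n ∧ HasDistinctDistances S ∧ S.card = k}

lemma bddAbove_sizes (n : ℕ) :
    BddAbove {k : ℕ | ∃ S : Finset (ℤ × ℤ), S ⊆ grid n ∧ HasDistinctDistances S ∧ S.card = k} := by
  refine ⟨(grid n).card, ?_⟩
  rintro k ⟨S, hS, _, rfl⟩
  exact Finset.card_le_card hS

/-- Sanity check: `maxDistinct n` is attained. -/
lemma exists_card_eq_maxDistinct (n : ℕ) :
    ∃ S : Finset (ℤ × ℤ), S ⊆ grid n ∧ HasDistinctDistances S ∧ S.card = maxDistinct n :=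
  Nat.sSup_mem (s := {k : ℕ | ∃ S : Finset (ℤ × ℤ), S ⊆ grid n ∧ HasDistinctDistances S ∧
    S.card = k}) ⟨0, ∅, Finset.empty_subset _, by intro a ha; simp at ha, rfl⟩ (bddAbove_sizes n)

/-- Sanity check: `maxDistinct n` is an upper bound. -/
lemma card_le_maxDistinct {n : ℕ} {S : Finset (ℤ × ℤ)} (hS : S ⊆ grid n)
    (hD : HasDistinctDistances S) : S.card ≤ maxDistinct n :=
  le_csSup (bddAbove_sizes n) ⟨S, hS, hD, rfl⟩

lemma dist_pt (a b : ℤ × ℤ) : dist (pt a) (pt b) = Real.sqrt (Pool.Agent.H41.sqd a b : ℤ) := by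
  rw [EuclideanSpace.dist_eq]
  simp [pt, Fin.sum_univ_two, Real.dist_eq, sq_abs, Pool.Agent.H41.sqd]

lemma dd_of_hasDistinctDistances {S : Finset (ℤ × ℤ)} (h : HasDistinctDistances S) :
    Pool.Agent.H41.DD S := by
  intro a ha b hb c hc d hd hab hcd he
  have := h a ha b hb c hc d hd hab hcd (by rw [dist_pt, dist_pt, he])
  rwa [Sym2.eq_iff] at this

/-- For every `c < (log 2) / 2` and all sufficiently large `n`,
`k(n) ≤ n ^ (1 - c / log log n)`. -/
theorem result (c : ℝ) (hc : c < Real.log 2 / 2) :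
    ∀ᶠ n : ℕ in atTop, (maxDistinct n : ℝ) ≤ (n : ℝ) ^ (1 - c / Real.log (Real.log n)) := by
  filter_upwards [Pool.Agent.H41.asymp c hc] with n hn
  obtain ⟨S, hS, hD, hcard⟩ := exists_card_eq_maxDistinct n
  rw [← hcard]
  refine hn S ?_ (dd_of_hasDistinctDistances hD)
  intro a ha
  have := hS ha
  simp only [grid, Finset.mem_product, Finset.mem_Icc] at this
  exact ⟨this.1.1, this.1.2, this.2.1, this.2.2⟩

end Pool.Agent.Results.MP_67d718_co.UpperLogLog
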